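import Pool.Agent.D0H82.SX.Stm
import Pool.Agent.D0H82.SR.C

set_option autoImplicit false

/-!
Module P4 of project SX: fourth moment of a short sum of characters.
-/

namespace Pool.Agent.D0H35.SX

open Complex MeasureTheory Pool.Agent.TH612.GS Pool.Agent.D0H82.SX Pool.Agent.D0H82.SR

noncomputable section

variable {k : ℕ}

theorem ch_mul (ν ν' : Fin k ⊕ Fin k → ℕ) (γ : Fin k ⊕ Fin k → ℝ) :
    ch (ν * ν') γ = ch ν γ * ch ν' γ := by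
  unfold ch
  simp only [Pi.mul_apply, Nat.cast_mul, natCast_mul_natCast_cpow, Finset.prod_mul_distrib]
  ring

theorem mem_tup_mul {X : ℕ} {ν ν' : Fin k ⊕ Fin k → ℕ} (h : ν ∈ tup k X) (h' : ν' ∈ tup k X) :
    ν * ν' ∈ tup k (X ^ 2) := by
  unfold tup at h h' ⊢
  rw [Fintype.mem_piFinset] at h h' ⊢
  intro i
  have h1 := Finset.mem_Icc.1 (h i)
  have h2 := Finset.mem_Icc.1 (h' i)
  rw [Finset.mem_Icc, Pi.mul_apply, pow_two]
  exact ⟨Nat.mul_pos h1.1 h2.1, Nat.mul_le_mul h1.2 h2.2⟩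

/-- the pairs with a given product -/
def prs (k X : ℕ) (μ : Fin k ⊕ Fin k → ℕ) :
    Finset ((Fin k ⊕ Fin k → ℕ) × (Fin k ⊕ Fin k → ℕ)) :=
  (tup k X ×ˢ tup k X).filter fun p => p.1 * p.2 = μ

theorem card_prs {X : ℕ} {μ : Fin k ⊕ Fin k → ℕ} (hμ : ∀ i, 1 ≤ μ i) :
    (prs k X μ).card ≤ ∏ i, (μ i).divisors.card := by
  rw [← Fintype.card_piFinset]
  refine Finset.card_le_card_of_injOn Prod.fst ?_ ?_
  · intro p hp
    rw [Finset.mem_coe, prs, Finset.mem_filter] at hp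
    rw [Finset.mem_coe, Fintype.mem_piFinset]
    intro i
    rw [Nat.mem_divisors]
    refine ⟨⟨p.2 i, ?_⟩, by have := hμ i; omega⟩
    rw [← hp.2]
    rfl
  · intro p hp q hq h
    rw [Finset.mem_coe, prs, Finset.mem_filter, Finset.mem_product] at hp hq
    refine Prod.ext h (funext fun i => ?_)
    have h1 : p.1 i * p.2 i = q.1 i * q.2 i := by
      have := congrFun (hp.2.trans hq.2.symm) i
      exact this
    have h2 := (Finset.mem_Icc.1 (Fintype.mem_piFinset.1 hp.1.1 i)).1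
    rw [← h] at h1
    exact Nat.eq_of_mul_eq_mul_left (by omega) h1

/-- the coefficients of the square -/
def sq (X : ℕ) (c : (Fin k ⊕ Fin k → ℕ) → ℂ) (μ : Fin k ⊕ Fin k → ℕ) : ℂ :=
  ∑ p ∈ prs k X μ, c p.1 * c p.2

theorem sq_sum (X : ℕ) (c : (Fin k ⊕ Fin k → ℕ) → ℂ) (γ : Fin k ⊕ Fin k → ℝ) :
    (∑ ν ∈ tup k X, c ν * ch ν γ) ^ 2 = ∑ μ ∈ tup k (X ^ 2), sq X c μ * ch μ γ := by
  rw [pow_two, Finset.sum_mul_sum, ← Finset.sum_product',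
    ← Finset.sum_fiberwise_of_maps_to (s := tup k X ×ˢ tup k X) (t := tup k (X ^ 2))
      (g := fun p => p.1 * p.2)
      (fun p hp => mem_tup_mul (Finset.mem_product.1 hp).1 (Finset.mem_product.1 hp).2)]
  refine Finset.sum_congr rfl fun μ _ => ?_
  unfold sq prs
  rw [Finset.sum_mul]
  refine Finset.sum_congr rfl fun p hp => ?_
  rw [Finset.mem_filter] at hp
  rw [← hp.2, ch_mul]
  ring

theorem norm_sq_le (X : ℕ) (c : (Fin k ⊕ Fin k → ℕ) → ℂ) (μ : Fin k ⊕ Fin k → ℕ) :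
    ‖sq X c μ‖ ^ 2 ≤ (prs k X μ).card * ∑ p ∈ prs k X μ, ‖c p.1‖ ^ 2 * ‖c p.2‖ ^ 2 := by
  have h1 : ‖sq X c μ‖ ≤ ∑ p ∈ prs k X μ, ‖c p.1‖ * ‖c p.2‖ := by
    unfold sq
    refine (norm_sum_le _ _).trans (le_of_eq ?_)
    exact Finset.sum_congr rfl fun p _ => norm_mul _ _
  calc ‖sq X c μ‖ ^ 2 ≤ (∑ p ∈ prs k X μ, ‖c p.1‖ * ‖c p.2‖) ^ 2 := by gcongr
    _ ≤ (prs k X μ).card * ∑ p ∈ prs k X μ, (‖c p.1‖ * ‖c p.2‖) ^ 2 := sq_sum_le_card_mul_sum_sq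
    _ = _ := by simp only [mul_pow]

theorem sum_sq (X : ℕ) (c : (Fin k ⊕ Fin k → ℕ) → ℂ) :
    ∑ μ ∈ tup k (X ^ 2), ∑ p ∈ prs k X μ, ‖c p.1‖ ^ 2 * ‖c p.2‖ ^ 2 =
      (∑ ν ∈ tup k X, ‖c ν‖ ^ 2) ^ 2 := by
  rw [pow_two (∑ ν ∈ tup k X, ‖c ν‖ ^ 2), Finset.sum_mul_sum, ← Finset.sum_product',
    ← Finset.sum_fiberwise_of_maps_to (s := tup k X ×ˢ tup k X) (t := tup k (X ^ 2))
      (g := fun p => p.1 * p.2)
      (fun p hp => mem_tup_mul (Finset.mem_product.1 hp).1 (Finset.mem_product.1 hp).2)]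
  rfl

/-- **P4.** -/
theorem t_P4 (hT : S_TMV) : S_P4 := by
  intro k ε hε
  obtain ⟨C1, hC1, h1⟩ := TMV2 hT k
  set δ : ℝ := ε / (2 * k + 1) with hδ
  have hδ0 : 0 < δ := by positivity
  obtain ⟨C2, hC2, h2⟩ := divpow 1 hδ0
  refine ⟨C1 * (C2 ^ (2 * k) * 4 ^ ε), by positivity, fun T X c hT4 hX => ?_⟩
  have hT0 : 0 < T := by linarith
  have hX' : ((X ^ 2 : ℕ) : ℝ) ≤ 4 * T := by
    push_cast
    exact hX
  have h3 := h1 T (X ^ 2) (sq X c) hT4 hX'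
  have h4 : ∀ γ : Fin k ⊕ Fin k → ℝ, ENNReal.ofReal (‖∑ ν ∈ tup k X, c ν * ch ν γ‖ ^ 4) =
      ENNReal.ofReal (‖∑ μ ∈ tup k (X ^ 2), sq X c μ * ch μ γ‖ ^ 2) := by
    intro γ
    rw [← sq_sum, norm_pow, ← pow_mul]
  simp only [h4]
  refine h3.trans (ENNReal.ofReal_le_ofReal ?_)
  -- the number of the pairs
  have h5 : ∀ μ ∈ tup k (X ^ 2), ((prs k X μ).card : ℝ) ≤ C2 ^ (2 * k) * 4 ^ ε * T ^ ε := by
    intro μ hμ
    have h6 : ∀ i, 1 ≤ μ i ∧ μ i ≤ X ^ 2 := fun i =>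
      Finset.mem_Icc.1 (Fintype.mem_piFinset.1 hμ i)
    have h7 : ((prs k X μ).card : ℝ) ≤ ∏ i, ((μ i).divisors.card : ℝ) := by
      exact_mod_cast card_prs (X := X) (μ := μ) fun i => (h6 i).1
    have h8 : ∏ i, ((μ i).divisors.card : ℝ) ≤ ∏ _i : Fin k ⊕ Fin k, (C2 * (4 * T) ^ δ) := by
      refine Finset.prod_le_prod (fun _ _ => by positivity) fun i _ => ?_
      have h9 := h2 (μ i) (h6 i).1
      rw [pow_one] at h9
      refine h9.trans ?_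
      gcongr
      calc ((μ i : ℕ) : ℝ) ≤ ((X ^ 2 : ℕ) : ℝ) := by exact_mod_cast (h6 i).2
        _ ≤ 4 * T := hX'
    refine h7.trans (h8.trans ?_)
    rw [Finset.prod_const, Finset.card_univ, Fintype.card_sum, Fintype.card_fin, mul_pow]
    have h9 : ((4 * T) ^ δ) ^ (k + k) ≤ 4 ^ ε * T ^ ε := by
      rw [← Real.rpow_natCast, ← Real.rpow_mul (by positivity), ← Real.mul_rpow (by norm_num) hT0.le]
      refine Real.rpow_le_rpow_of_exponent_le (by linarith) ?_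
      rw [hδ, div_mul_eq_mul_div, div_le_iff₀ (by positivity)]
      push_cast
      nlinarith
    have h10 : k + k = 2 * k := by ring
    calc C2 ^ (k + k) * ((4 * T) ^ δ) ^ (k + k) ≤ C2 ^ (k + k) * (4 ^ ε * T ^ ε) := by gcongr
      _ = _ := by rw [h10]; ring
  have h6 : ∑ μ ∈ tup k (X ^ 2), ‖sq X c μ‖ ^ 2 ≤
      C2 ^ (2 * k) * 4 ^ ε * T ^ ε * (∑ ν ∈ tup k X, ‖c ν‖ ^ 2) ^ 2 := by
    rw [← sum_sq, Finset.mul_sum]
    refine Finset.sum_le_sum fun μ hμ => (norm_sq_le X c μ).trans ?_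
    exact mul_le_mul_of_nonneg_right (h5 μ hμ) (Finset.sum_nonneg fun _ _ => by positivity)
  calc C1 * T ^ (2 * k) * ∑ μ ∈ tup k (X ^ 2), ‖sq X c μ‖ ^ 2
      ≤ C1 * T ^ (2 * k) * (C2 ^ (2 * k) * 4 ^ ε * T ^ ε * (∑ ν ∈ tup k X, ‖c ν‖ ^ 2) ^ 2) := by
        gcongr
    _ = _ := by ring

end

end Pool.Agent.D0H35.SX
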